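import Mathlib

set_option autoImplicit false

namespace Pool.Agent.Results.MP_4cb54f_co.Proof

/-- Admissible parameter sets in the non-trivial range, with `e = r * c / v`. -/
def Admissible (v r c : ℕ) : Prop :=
  2 ≤ r ∧ 2 ≤ c ∧ max r c < v ∧ 2 * v ≤ r * c ∧
    v ∣ r * c ∧ (r - 1) ∣ c * (r * c / v - 1) ∧ (c - 1) ∣ r * (r * c / v - 1)

lemma core (g E P Q τ m : ℤ) (hg : 0 < g) (hE : 0 < E) (hP : 0 < P) (hQ : 0 < Q)
    (h1 : P * Q = (g * E + 1) * τ) (hs : g * τ < E)
    (h2 : (g * E + 1) * (E - g * τ) = (E + P) * (E + Q) * m) : False := by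
  have he : 0 < g * E + 1 := by positivity
  have hτ : 0 < τ := by
    by_contra h
    have : (g * E + 1) * τ ≤ 0 := mul_nonpos_of_nonneg_of_nonpos he.le (by omega)
    have := mul_pos hP hQ
    omega
  have hRC : 0 < (E + P) * (E + Q) := by positivity
  have hm : 0 < m := by
    by_contra h
    have h3 : (E + P) * (E + Q) * m ≤ 0 := mul_nonpos_of_nonneg_of_nonpos hRC.le (by omega)
    have h4 := mul_pos he (show 0 < E - g * τ by omega)
    omega
  have hmg : m ≤ g := by
    by_contra h
    have h3 : (E + P) * (E + Q) * (g + 1) ≤ (E + P) * (E + Q) * m :=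
      mul_le_mul_of_nonneg_left (by omega) hRC.le
    have h4 : E * E ≤ (E + P) * (E + Q) := by nlinarith
    have h5 : E * E * (g + 1) ≤ (E + P) * (E + Q) * (g + 1) :=
      mul_le_mul_of_nonneg_right h4 (by omega)
    have h6 : 0 < (g * E + 1) * (g * τ) := by positivity
    have h7 : E ≤ E * E := by nlinarith
    nlinarith
  have hk : τ * (m + g) = E * ((g * E + 1) - g * g * τ - m * (E + P + Q) - m * g * τ) := by
    linear_combination -h2 - m * h1
  set k := (g * E + 1) - g * g * τ - m * (E + P + Q) - m * g * τ with hkd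
  have h3 : 0 < τ * (m + g) := by positivity
  have h4 : τ * (m + g) < E * 2 := by nlinarith
  have hk0 : 0 < k := by
    by_contra h
    have : E * k ≤ 0 := mul_nonpos_of_nonneg_of_nonpos hE.le (by omega)
    omega
  have hk2 : k < 2 := lt_of_mul_lt_mul_left (by omega : E * k < E * 2) hE.le
  have hk1 : k = 1 := by omega
  rw [hk1, mul_one] at hk
  have h5 : (E + P) * (E + Q) * m = P * Q * m := by
    rw [← h2, h1, ← hk]; ring
  have h6 := mul_right_cancel₀ hm.ne' h5
  nlinarith [mul_pos hE hE, mul_pos hE hP, mul_pos hE hQ]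

lemma main (v r c e : ℤ) (he : 2 ≤ e) (hr : e < r) (hc : e < c) (h1 : r * c = v * e)
    (h2 : (r - 1) ∣ c * (e - 1)) (h3 : (c - 1) ∣ r * (e - 1)) : r + c - 1 ≤ v := by
  by_contra hlt
  obtain ⟨g, R, C, hg, hco, hR, hC⟩ := Int.exists_gcd_one'
    (show 0 < Int.gcd (r - 1) (c - 1) from Int.gcd_pos_of_ne_zero_left _ (by omega))
  have hg' : (0 : ℤ) < g := by exact_mod_cast hg
  have hgE : (g : ℤ) ∣ e - 1 := by
    have a1 : (g : ℤ) ∣ c * (e - 1) := (Dvd.intro_left _ hR.symm).trans h2
    have a2 : (g : ℤ) ∣ (c - 1) * (e - 1) := (Dvd.intro_left _ hC.symm).mul_right _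
    have := dvd_sub a1 a2
    rwa [show c * (e - 1) - (c - 1) * (e - 1) = e - 1 by ring] at this
  obtain ⟨E, hE⟩ := hgE
  have hcop : IsCoprime (g : ℤ) e := ⟨-E, 1, by linarith⟩
  obtain rfl : r = R * g + 1 := by omega
  obtain rfl : c = C * g + 1 := by omega
  obtain rfl : e = g * E + 1 := by omega
  set t := v - (R * g + 1) - (C * g + 1) + (g * E + 1) with ht
  have a1 : (g * E + 1) * t = g * g * ((R - E) * (C - E)) := by
    rw [ht]; linear_combination -h1
  have a2 : (g : ℤ) * g ∣ t :=
    (hcop.mul_left hcop).dvd_of_dvd_mul_left ⟨_, a1⟩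
  obtain ⟨τ, hτ⟩ := a2
  have a3 : (R - E) * (C - E) = (g * E + 1) * τ := by
    apply mul_left_cancel₀ (show (g : ℤ) * g ≠ 0 by positivity)
    rw [← a1, hτ]; ring
  have hE0 : 0 < E := by
    by_contra h
    have : (g : ℤ) * E ≤ 0 := mul_nonpos_of_nonneg_of_nonpos hg'.le (by omega)
    omega
  have hP : 0 < R - E := by
    by_contra h
    have : (g : ℤ) * (R - E) ≤ 0 := mul_nonpos_of_nonneg_of_nonpos hg'.le (by omega)
    nlinarith
  have hQ : 0 < C - E := by
    by_contra h
    have : (g : ℤ) * (C - E) ≤ 0 := mul_nonpos_of_nonneg_of_nonpos hg'.le (by omega)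
    nlinarith
  have hs : g * τ < E := by
    apply lt_of_mul_lt_mul_left _ hg'.le
    have : t < g * E := by omega
    rw [hτ] at this
    linarith
  have b1 : R ∣ (g * E + 1) * (E - g * τ) := by
    obtain ⟨a, ha⟩ := h2
    have : (C * g + 1) * E = R * a := by
      apply mul_left_cancel₀ hg'.ne'
      linear_combination ha
    exact ⟨a - g * (C - E), by linear_combination this + g * a3⟩
  have b2 : C ∣ (g * E + 1) * (E - g * τ) := by
    obtain ⟨a, ha⟩ := h3
    have : (R * g + 1) * E = C * a := by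
      apply mul_left_cancel₀ hg'.ne'
      linear_combination ha
    exact ⟨a - g * (R - E), by linear_combination this + g * a3⟩
  obtain ⟨m, hm⟩ := (Int.isCoprime_iff_gcd_eq_one.mpr hco).mul_dvd b1 b2
  exact core g E (R - E) (C - E) τ m hg' hE0 hP hQ a3 hs (by rw [hm]; ring)

theorem result (v r c : ℕ) (h : Admissible v r c) : r + c - 1 ≤ v := by
  obtain ⟨hr, hc, hv, h2, ⟨e, he⟩, h4, h5⟩ := h
  have hv1 : r < v := lt_of_le_of_lt (le_max_left _ _) hv
  have hv2 : c < v := lt_of_le_of_lt (le_max_right _ _) hv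
  rw [he, Nat.mul_div_cancel_left _ (by omega)] at h4 h5
  have he2 : 2 ≤ e := by
    by_contra h
    have : v * e ≤ v * 1 := Nat.mul_le_mul_left _ (by omega)
    omega
  have her : e < r := by
    by_contra h
    have : v * r ≤ v * e := Nat.mul_le_mul_left _ (by omega)
    nlinarith
  have hec : e < c := by
    by_contra h
    have : v * c ≤ v * e := Nat.mul_le_mul_left _ (by omega)
    nlinarith
  have := main v r c e (by exact_mod_cast he2) (by exact_mod_cast her) (by exact_mod_cast hec)
    (by exact_mod_cast he)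
    (by
      have := Int.natCast_dvd_natCast.mpr h4
      rwa [Nat.cast_mul, Nat.cast_sub (by omega), Nat.cast_sub (by omega)] at this)
    (by
      have := Int.natCast_dvd_natCast.mpr h5
      rwa [Nat.cast_mul, Nat.cast_sub (by omega), Nat.cast_sub (by omega)] at this)
  omega

end Pool.Agent.Results.MP_4cb54f_co.Proof
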